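import Pool.Agent.Helper36.SPR.St

/-!
# SPR module DB: the size of `d B + B` for a zero divisor `d`
-/

set_option autoImplicit false

namespace Pool.Agent.Helper51.SPR

open Finset Pool.Agent.Helper36.SPR
open scoped Pointwise

theorem db_aux {n : ℕ} [NeZero n] {A A' : Type} [CommRing A] [CommRing A'] [DecidableEq A]
    [DecidableEq A'] [IsDomain A'] (φ : ZMod n →+* A) (ψ : ZMod n →+* A') (B : Finset (ZMod n))
    (d : ZMod n) (hφ : φ d = 0) (hψ : ψ d ≠ 0) :
    (B.image φ).card * (B.image ψ).card ≤ (dil d B + B).card := by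
  classical
  have h1 : ∀ v : A, ∃ x : ZMod n, v ∈ B.image φ → x ∈ B ∧ φ x = v := by
    intro v
    by_cases hv : v ∈ B.image φ
    · obtain ⟨x, hx, hxv⟩ := mem_image.1 hv
      exact ⟨x, fun _ => ⟨hx, hxv⟩⟩
    · exact ⟨0, fun h => absurd h hv⟩
  have h2 : ∀ v : A', ∃ x : ZMod n, v ∈ B.image ψ → x ∈ B ∧ ψ x = v := by
    intro v
    by_cases hv : v ∈ B.image ψ
    · obtain ⟨x, hx, hxv⟩ := mem_image.1 hv
      exact ⟨x, fun _ => ⟨hx, hxv⟩⟩
    · exact ⟨0, fun h => absurd h hv⟩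
  choose f hf using h1
  choose g hg using h2
  rw [← card_product]
  apply card_le_card_of_injOn (fun z : A × A' => d * g z.2 + f z.1)
  · intro z hz
    have hz' := mem_product.1 (mem_coe.1 hz)
    obtain ⟨a1, a2⟩ := hf z.1 hz'.1
    obtain ⟨b1, b2⟩ := hg z.2 hz'.2
    exact mem_coe.2 (add_mem_add (mem_image_of_mem _ b1) a1)
  · intro z hz w hw hzw
    have hz' := mem_product.1 (mem_coe.1 hz)
    have hw' := mem_product.1 (mem_coe.1 hw)
    obtain ⟨a1, a2⟩ := hf z.1 hz'.1
    obtain ⟨b1, b2⟩ := hg z.2 hz'.2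
    obtain ⟨c1, c2⟩ := hf w.1 hw'.1
    obtain ⟨e1, e2⟩ := hg w.2 hw'.2
    simp only at hzw
    have k1 := congrArg φ hzw
    rw [map_add, map_add, map_mul, map_mul, hφ, zero_mul, zero_mul, zero_add, zero_add, a2, c2]
      at k1
    have k2 := congrArg ψ hzw
    rw [map_add, map_add, map_mul, map_mul, b2, e2, k1] at k2
    have k3 : ψ d * z.2 = ψ d * w.2 := add_right_cancel k2
    exact Prod.ext k1 (mul_left_cancel₀ hψ k3)

theorem hDB : StDB := by
  intro p q _ _ hp hq hpq B d hd0 hdu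
  have : Fact p.Prime := ⟨hp⟩
  have : Fact q.Prime := ⟨hq⟩
  have : NeZero (p * q) := ⟨mul_ne_zero hp.ne_zero hq.ne_zero⟩
  set φ : ZMod (p * q) →+* ZMod p := ZMod.castHom (Dvd.intro q rfl) (ZMod p) with hφ
  set ψ : ZMod (p * q) →+* ZMod q := ZMod.castHom (Dvd.intro_left p rfl) (ZMod q) with hψ
  have e1 : (B.image (fun x => (ZMod.cast x : ZMod p))) = B.image φ := by
    apply image_congr
    intro x _
    rfl
  have e2 : (B.image (fun x => (ZMod.cast x : ZMod q))) = B.image ψ := by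
    apply image_congr
    intro x _
    rfl
  rw [e1, e2]
  have hdv : ((d.val : ℕ) : ZMod (p * q)) = d := ZMod.natCast_zmod_val d
  have a1 : φ d = ((d.val : ℕ) : ZMod p) := by
    conv_lhs => rw [← hdv]
    rw [map_natCast]
  have a2 : ψ d = ((d.val : ℕ) : ZMod q) := by
    conv_lhs => rw [← hdv]
    rw [map_natCast]
  have hcop : Nat.Coprime p q := (Nat.coprime_primes hp hq).2 hpq
  by_cases h1 : φ d = 0
  · by_cases h2 : ψ d = 0
    · exfalso
      apply hd0
      rw [a1, ZMod.natCast_eq_zero_iff] at h1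
      rw [a2, ZMod.natCast_eq_zero_iff] at h2
      have h3 : p * q ∣ d.val := hcop.mul_dvd_of_dvd_of_dvd h1 h2
      rw [← hdv, ZMod.natCast_eq_zero_iff]
      exact h3
    · exact db_aux φ ψ B d h1 h2
  · by_cases h2 : ψ d = 0
    · rw [mul_comm]
      exact db_aux ψ φ B d h2 h1
    · exfalso
      apply hdu
      rw [← hdv, ZMod.isUnit_iff_coprime]
      rw [a1, ZMod.natCast_eq_zero_iff] at h1
      rw [a2, ZMod.natCast_eq_zero_iff] at h2
      apply Nat.Coprime.mul_right
      · exact ((Nat.Prime.coprime_iff_not_dvd hp).2 h1).symm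
      · exact ((Nat.Prime.coprime_iff_not_dvd hq).2 h2).symm

end Pool.Agent.Helper51.SPR
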